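import Pool.Agent.Helper24.LD.Defs

/-!
Part P7a of `SparseParityChecks` (MP_0430e4_lc): splitting the checks of a configuration.
-/

set_option autoImplicit false

namespace Pool.Agent.Helper10.LD

open Finset Pool.Agent.Helper24.LD

/-- transport of an incidence structure along bijections with `Fin` -/
theorem TG_of {ρ γ : Type} [Fintype ρ] [DecidableEq ρ] [Fintype γ] [DecidableEq γ]
    (I : ρ → Finset γ) {w c n m : ℕ} {d : ℝ} (hn : Fintype.card γ = n) (hm : Fintype.card ρ = m)
    (h1 : ∀ i, (I i).card ≤ w) (h2 : ∀ j, (rowsOf I j).card ≤ c)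
    (h3 : ∀ S : Finset γ, S.Nonempty → (S.card : ℝ) < d → ∃ i, (I i ∩ S).card = 1) :
    TG w c n m d := by
  classical
  have e : γ ≃ Fin n := Fintype.equivFinOfCardEq hn
  have f : ρ ≃ Fin m := Fintype.equivFinOfCardEq hm
  refine ⟨fun i => (I (f.symm i)).map e.toEmbedding, fun i => ?_, fun j => ?_, fun S hS hd => ?_⟩
  · rw [card_map]; exact h1 _
  · refine le_trans ?_ (h2 (e.symm j))
    have : rowsOf (fun i => (I (f.symm i)).map e.toEmbedding) j ⊆
        (rowsOf I (e.symm j)).map f.toEmbedding := by
      intro i hi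
      simp only [rowsOf, mem_filter, mem_univ, true_and, mem_map, Equiv.coe_toEmbedding] at hi ⊢
      obtain ⟨a, ha, haj⟩ := hi
      refine ⟨f.symm i, ?_, by simp⟩
      rw [← haj]; simpa using ha
    calc _ ≤ _ := card_le_card this
      _ = _ := card_map _
  · obtain ⟨i, hi⟩ := h3 (S.map e.symm.toEmbedding) (by simpa using hS) (by simpa using hd)
    refine ⟨f i, ?_⟩
    rw [← hi]
    have : (I (f.symm (f i))).map e.toEmbedding ∩ S =
        (I i ∩ S.map e.symm.toEmbedding).map e.toEmbedding := by
      ext x
      simp only [Equiv.symm_apply_apply, mem_inter, mem_map, Equiv.coe_toEmbedding]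
      constructor
      · rintro ⟨⟨a, ha, hax⟩, hx⟩
        exact ⟨a, ⟨ha, x, hx, by rw [← hax]; simp⟩, hax⟩
      · rintro ⟨a, ⟨ha, b, hb, hba⟩, hax⟩
        refine ⟨⟨a, ha, hax⟩, ?_⟩
        rw [← hax, ← hba]; simpa using hb
    show ((I (f.symm (f i))).map e.toEmbedding ∩ S).card = _
    rw [this, card_map]

section split

variable {N M t u : ℕ} (σ : Fin N × Fin 3 ≃ Fin M × Fin (t * u)) (e : ℕ)

/-- the block of a socket of a check -/
def blk (p : Fin (t * u)) : Fin t := (finProdFinEquiv.symm p).1

open Classical in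
/-- the rows of the split structure -/
noncomputable def rowI : (Fin M × Fin t) ⊕ Fin e → Finset (Fin N ⊕ ((Fin M × Fin (t - 1)) ⊕ Fin e))
  | Sum.inl (i, j) => univ.filter fun x => match x with
      | Sum.inl y => ∃ k, (σ (y, k)).1 = i ∧ blk (σ (y, k)).2 = j
      | Sum.inr (Sum.inl (i', l)) => i' = i ∧ (l.val = j.val ∨ l.val + 1 = j.val)
      | Sum.inr (Sum.inr _) => False
  | Sum.inr z => {Sum.inr (Sum.inr z)}

theorem mem_main (i : Fin M) (j : Fin t) (y : Fin N) :
    (Sum.inl y ∈ rowI σ e (Sum.inl (i, j))) ↔ ∃ k, (σ (y, k)).1 = i ∧ blk (σ (y, k)).2 = j := by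
  simp [rowI]

theorem mem_aux (i : Fin M) (j : Fin t) (i' : Fin M) (l : Fin (t - 1)) :
    (Sum.inr (Sum.inl (i', l)) ∈ rowI σ e (Sum.inl (i, j))) ↔
      i' = i ∧ (l.val = j.val ∨ l.val + 1 = j.val) := by
  simp [rowI]

theorem mem_extra (i : Fin M) (j : Fin t) (z : Fin e) :
    ¬ (Sum.inr (Sum.inr z) ∈ rowI σ e (Sum.inl (i, j))) := by
  simp [rowI]

theorem card_rowI (r : (Fin M × Fin t) ⊕ Fin e) : (rowI σ e r).card ≤ u + 2 := by
  classical
  rcases r with ⟨i, j⟩ | z
  · have hsub : rowI σ e (Sum.inl (i, j)) ⊆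
        ((univ : Finset (Fin u)).image fun q =>
            (Sum.inl (σ.symm (i, finProdFinEquiv (j, q))).1 :
              Fin N ⊕ ((Fin M × Fin (t - 1)) ⊕ Fin e))) ∪
          (((univ : Finset (Fin (t - 1))).filter fun l => l.val = j.val ∨ l.val + 1 = j.val).image
            fun l => Sum.inr (Sum.inl (i, l))) := by
      intro x hx
      rcases x with y | ⟨i', l⟩ | z
      · rw [mem_main] at hx
        obtain ⟨k, hk1, hk2⟩ := hx
        rw [mem_union]; left
        rw [mem_image]
        refine ⟨(finProdFinEquiv.symm (σ (y, k)).2).2, mem_univ _, ?_⟩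
        have h3 : finProdFinEquiv (j, (finProdFinEquiv.symm (σ (y, k)).2).2) = (σ (y, k)).2 := by
          rw [← hk2]
          exact finProdFinEquiv.apply_symm_apply _
        have h4 : (i, finProdFinEquiv (j, (finProdFinEquiv.symm (σ (y, k)).2).2)) = σ (y, k) := by
          rw [h3, ← hk1]
        rw [h4]; simp
      · rw [mem_aux] at hx
        rw [mem_union]; right
        rw [mem_image]
        refine ⟨l, ?_, by rw [hx.1]⟩
        simp [hx.2]
      · exact absurd hx (mem_extra σ e i j z)
    have h1 : (((univ : Finset (Fin u)).image fun q =>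
            (Sum.inl (σ.symm (i, finProdFinEquiv (j, q))).1 :
              Fin N ⊕ ((Fin M × Fin (t - 1)) ⊕ Fin e)))).card ≤ u := by
      refine card_image_le.trans ?_
      simp
    have h2 : (((univ : Finset (Fin (t - 1))).filter fun l => l.val = j.val ∨ l.val + 1 = j.val).image
            fun l => (Sum.inr (Sum.inl (i, l)) : Fin N ⊕ ((Fin M × Fin (t - 1)) ⊕ Fin e))).card ≤ 2 := by
      refine card_image_le.trans ?_
      have : (((univ : Finset (Fin (t - 1))).filter fun l => l.val = j.val ∨ l.val + 1 = j.val)).card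
          = (((univ : Finset (Fin (t - 1))).filter fun l => l.val = j.val ∨ l.val + 1 = j.val).image
            fun l => l.val).card := by
        rw [card_image_of_injective _ Fin.val_injective]
      rw [this]
      refine (card_le_card (t := {j.val, j.val - 1}) ?_).trans card_le_two
      intro a ha
      simp only [mem_image, mem_filter, mem_univ, true_and] at ha
      obtain ⟨l, hl, rfl⟩ := ha
      simp only [mem_insert, mem_singleton]
      omega
    calc _ ≤ _ := card_le_card hsub
      _ ≤ _ := card_union_le _ _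
      _ ≤ u + 2 := by omega
  · simp [rowI]

theorem card_rowsOf (x : Fin N ⊕ ((Fin M × Fin (t - 1)) ⊕ Fin e)) :
    (rowsOf (rowI σ e) x).card ≤ 3 := by
  classical
  rcases x with y | ⟨i', l⟩ | z
  · have hsub : rowsOf (rowI σ e) (Sum.inl y) ⊆
        (univ : Finset (Fin 3)).image fun k => Sum.inl ((σ (y, k)).1, blk (σ (y, k)).2) := by
      intro r hr
      simp only [rowsOf, mem_filter, mem_univ, true_and] at hr
      rcases r with ⟨i, j⟩ | z
      · rw [mem_main] at hr
        obtain ⟨k, hk1, hk2⟩ := hr
        rw [mem_image]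
        exact ⟨k, mem_univ _, by rw [hk1, hk2]⟩
      · simp [rowI] at hr
    refine (card_le_card hsub).trans (card_image_le.trans ?_)
    simp
  · have hsub : rowsOf (rowI σ e) (Sum.inr (Sum.inl (i', l))) ⊆
        ((univ : Finset (Fin t)).filter fun j => l.val = j.val ∨ l.val + 1 = j.val).image
          fun j => Sum.inl (i', j) := by
      intro r hr
      simp only [rowsOf, mem_filter, mem_univ, true_and] at hr
      rcases r with ⟨i, j⟩ | z
      · rw [mem_aux] at hr
        rw [mem_image]
        exact ⟨j, by simp [hr.2], by rw [hr.1]⟩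
      · simp [rowI] at hr
    refine (card_le_card hsub).trans (card_image_le.trans ?_)
    have : (((univ : Finset (Fin t)).filter fun j => l.val = j.val ∨ l.val + 1 = j.val)).card
          = (((univ : Finset (Fin t)).filter fun j => l.val = j.val ∨ l.val + 1 = j.val).image
            fun j => j.val).card := by
      rw [card_image_of_injective _ Fin.val_injective]
    rw [this]
    refine (card_le_card (t := {l.val, l.val + 1}) ?_).trans (card_le_two.trans (by norm_num))
    intro a ha
    simp only [mem_image, mem_filter, mem_univ, true_and] at ha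
    obtain ⟨j, hj, rfl⟩ := ha
    simp only [mem_insert, mem_singleton]
    omega
  · have hsub : rowsOf (rowI σ e) (Sum.inr (Sum.inr z)) ⊆ {Sum.inr z} := by
      intro r hr
      simp only [rowsOf, mem_filter, mem_univ, true_and] at hr
      rcases r with ⟨i, j⟩ | z'
      · exact absurd hr (mem_extra σ e i j z)
      · simp [rowI] at hr
        simp [hr]
    refine (card_le_card hsub).trans ?_
    simp

/-- a row whose main columns avoid `S` and with exactly one auxiliary column in `S` -/
theorem card_one_aux (S : Finset (Fin N ⊕ ((Fin M × Fin (t - 1)) ⊕ Fin e))) (i : Fin M) (j : Fin t)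
    (hmain : ∀ y, Sum.inl y ∈ S → ∀ k, (σ (y, k)).1 = i → blk (σ (y, k)).2 ≠ j)
    (l : Fin (t - 1)) (hl : Sum.inr (Sum.inl (i, l)) ∈ S) (hlj : l.val = j.val ∨ l.val + 1 = j.val)
    (hother : ∀ l' : Fin (t - 1), l' ≠ l → (l'.val = j.val ∨ l'.val + 1 = j.val) →
      ¬ (Sum.inr (Sum.inl (i, l')) ∈ S)) :
    (rowI σ e (Sum.inl (i, j)) ∩ S).card = 1 := by
  classical
  rw [card_eq_one]
  refine ⟨Sum.inr (Sum.inl (i, l)), ?_⟩
  ext x
  rw [mem_inter, mem_singleton]
  constructor
  · rintro ⟨h1, h2⟩
    rcases x with y | ⟨i', l'⟩ | z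
    · rw [mem_main] at h1
      obtain ⟨k, hk1, hk2⟩ := h1
      exact absurd hk2 (hmain y h2 k hk1)
    · rw [mem_aux] at h1
      obtain ⟨h1, h3⟩ := h1
      subst h1
      by_cases hll : l' = l
      · rw [hll]
      · exact absurd h2 (hother l' hll h3)
    · exact absurd h1 (mem_extra σ e i j z)
  · rintro rfl
    exact ⟨(mem_aux σ e i j i l).2 ⟨rfl, hlj⟩, hl⟩

end split

/-- P7a: splitting the checks of a configuration -/
theorem p7a : S_P7a := by
  classical
  intro N M t u d σ ht hbad e
  refine TG_of (rowI σ e) ?_ ?_ (card_rowI σ e) (card_rowsOf σ e) ?_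
  · simp [add_assoc]
  · simp
  intro S hS hd
  by_cases hex : ∃ z, Sum.inr (Sum.inr z) ∈ S
  · obtain ⟨z, hz⟩ := hex
    refine ⟨Sum.inr z, ?_⟩
    rw [show rowI σ e (Sum.inr z) = {Sum.inr (Sum.inr z)} from rfl, singleton_inter_of_mem hz]
    simp
  push Not at hex
  set S0 : Finset (Fin N) := univ.filter fun y => Sum.inl y ∈ S with hS0
  have hmem0 : ∀ y, y ∈ S0 ↔ Sum.inl y ∈ S := by intro y; simp [hS0]
  by_cases h0 : S0.Nonempty
  · have hs1 : 1 ≤ S0.card := h0.card_pos
    have hs2 : S0.card ≤ S.card := by
      have : S0.map ⟨Sum.inl, Sum.inl_injective⟩ ⊆ S := by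
        intro x hx
        simp only [mem_map, Function.Embedding.coeFn_mk] at hx
        obtain ⟨y, hy, rfl⟩ := hx
        exact (hmem0 y).1 hy
      calc S0.card = _ := (card_map _).symm
        _ ≤ _ := card_le_card this
    have hs3 : S0.card < d := by
      have : (S.card : ℝ) < (d : ℝ) := hd
      have : S.card < d := by exact_mod_cast this
      omega
    have hb := hbad S0.card hs1 hs3
    have hnot : S0 ∉ badSets σ S0.card := by rw [hb]; simp
    have hex1 : ∃ i : Fin M, ((S0 ×ˢ univ).filter fun a => (σ a).1 = i).card = 1 := by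
      by_contra hcon
      push Not at hcon
      apply hnot
      rw [badSets, mem_filter, mem_powersetCard]
      exact ⟨⟨subset_univ _, rfl⟩, hcon⟩
    obtain ⟨i, hi⟩ := hex1
    rw [card_eq_one] at hi
    obtain ⟨a, ha⟩ := hi
    have hau : ∀ y k, Sum.inl y ∈ S → (σ (y, k)).1 = i → (y, k) = a := by
      intro y k hy hk
      have : (y, k) ∈ ((S0 ×ˢ univ).filter fun a => (σ a).1 = i) := by
        rw [mem_filter, mem_product]
        exact ⟨⟨(hmem0 y).2 hy, mem_univ _⟩, hk⟩
      rw [ha, mem_singleton] at this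
      exact this
    have haa : a.1 ∈ S0 ∧ (σ a).1 = i := by
      have : a ∈ ((S0 ×ˢ univ).filter fun a => (σ a).1 = i) := by rw [ha]; simp
      rw [mem_filter, mem_product] at this
      exact ⟨this.1.1, this.2⟩
    set j0 : Fin t := blk (σ a).2 with hj0
    by_contra hcon
    push Not at hcon
    have hmain : ∀ j : Fin t, j ≠ j0 → ∀ y, Sum.inl y ∈ S → ∀ k, (σ (y, k)).1 = i →
        blk (σ (y, k)).2 ≠ j := by
      intro j hj y hy k hk hb
      have := hau y k hy hk
      rw [this] at hb
      exact hj (hb.symm.trans hj0.symm)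
    -- auxiliary columns to the left
    have hleft : ∀ v : ℕ, ∀ l : Fin (t - 1), l.val = v → v < j0.val →
        ¬ (Sum.inr (Sum.inl (i, l)) ∈ S) := by
      intro v
      induction v using Nat.strong_induction_on with
      | _ v ih =>
        intro l hlv hv hmem
        have hlt : l.val < t := by have := l.isLt; omega
        refine hcon (Sum.inl (i, ⟨l.val, hlt⟩)) (card_one_aux σ e S i ⟨l.val, hlt⟩
          (hmain _ ?_) l hmem (Or.inl rfl) ?_)
        · intro h
          have := congrArg Fin.val h
          simp at this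
          omega
        · intro l' hl' hor hm'
          rcases hor with h | h
          · exact hl' (Fin.ext h)
          · simp only at h
            exact ih l'.val (by omega) l' rfl (by omega) hm'
    have hright : ∀ v : ℕ, ∀ l : Fin (t - 1), l.val + v = t - 2 → j0.val ≤ l.val →
        ¬ (Sum.inr (Sum.inl (i, l)) ∈ S) := by
      intro v
      induction v using Nat.strong_induction_on with
      | _ v ih =>
        intro l hlv hv hmem
        have hlt : l.val + 1 < t := by have := l.isLt; omega
        refine hcon (Sum.inl (i, ⟨l.val + 1, hlt⟩)) (card_one_aux σ e S i ⟨l.val + 1, hlt⟩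
          (hmain _ ?_) l hmem (Or.inr rfl) ?_)
        · intro h
          have := congrArg Fin.val h
          simp at this
          omega
        · intro l' hl' hor hm'
          rcases hor with h | h
          · simp only at h
            have := l'.isLt
            exact ih (v - 1) (by omega) l' (by omega) (by omega) hm'
          · simp only at h
            exact hl' (Fin.ext (by omega))
    have hall : ∀ l : Fin (t - 1), ¬ (Sum.inr (Sum.inl (i, l)) ∈ S) := by
      intro l
      have := l.isLt
      rcases lt_or_ge l.val j0.val with h | h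
      · exact hleft l.val l rfl h
      · exact hright (t - 2 - l.val) l (by omega) h
    refine hcon (Sum.inl (i, j0)) ?_
    rw [card_eq_one]
    refine ⟨Sum.inl a.1, ?_⟩
    ext x
    rw [mem_inter, mem_singleton]
    constructor
    · rintro ⟨h1, h2⟩
      rcases x with y | ⟨i', l'⟩ | z
      · rw [mem_main] at h1
        obtain ⟨k, hk1, hk2⟩ := h1
        have := hau y k h2 hk1
        rw [← this]
      · rw [mem_aux] at h1
        obtain ⟨h1, h3⟩ := h1
        subst h1
        exact absurd h2 (hall l')
      · exact absurd h1 (mem_extra σ e i j0 z)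
    · rintro rfl
      exact ⟨(mem_main σ e i j0 a.1).2 ⟨a.2, haa.2, rfl⟩, (hmem0 _).1 haa.1⟩
  · -- only auxiliary columns
    rw [not_nonempty_iff_eq_empty] at h0
    have hno : ∀ y, ¬ (Sum.inl y ∈ S) := by
      intro y hy
      have := (hmem0 y).2 hy
      rw [h0] at this
      simp at this
    have hexl : ∃ v : ℕ, ∃ i : Fin M, ∃ l : Fin (t - 1), l.val = v ∧
        Sum.inr (Sum.inl (i, l)) ∈ S := by
      obtain ⟨x, hx⟩ := hS
      rcases x with y | ⟨i', l'⟩ | z
      · exact absurd hx (hno y)
      · exact ⟨l'.val, i', l', rfl, hx⟩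
      · exact absurd hx (hex z)
    classical
    obtain ⟨i, l, hlv, hl⟩ := Nat.find_spec hexl
    have hmin : ∀ l' : Fin (t - 1), l'.val < Nat.find hexl → ¬ (Sum.inr (Sum.inl (i, l')) ∈ S) := by
      intro l' hl' hm
      exact Nat.find_min hexl hl' ⟨i, l', rfl, hm⟩
    have hlt : l.val < t := by have := l.isLt; omega
    refine ⟨Sum.inl (i, ⟨l.val, hlt⟩), card_one_aux σ e S i ⟨l.val, hlt⟩ ?_ l hl (Or.inl rfl) ?_⟩
    · intro y hy
      exact absurd hy (hno y)
    · intro l' hl' hor hm'
      rcases hor with h | h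
      · exact hl' (Fin.ext h)
      · simp only at h
        exact hmin l' (by omega) hm'

end Pool.Agent.Helper10.LD
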