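import Pool.Agent.Helper24.LD.Defs
import Pool.Agent.Helper10.LD.P7a

/-!
Part P8 of `SparseParityChecks` (MP_0430e4_lc): logarithmic distance.
-/

set_option autoImplicit false

namespace Pool.Agent.Helper10.LD

open Finset Pool.Agent.Helper24.LD

section freeze

variable {N M w : ℕ} (σ : Fin N × Fin 2 ≃ Fin M × Fin w) (e : ℕ)

open Classical in
/-- a column of a nonempty set -/
noncomputable def pick (S : Finset (Fin N)) : Finset (Fin N ⊕ Fin e) :=
  if h : S.Nonempty then {Sum.inl h.choose} else ∅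

theorem card_pick (S : Finset (Fin N)) : (pick e S).card ≤ 1 := by
  unfold pick
  split_ifs <;> simp

open Classical in
/-- the frozen columns -/
noncomputable def frozen (g : ℕ) : Finset (Fin N ⊕ Fin e) :=
  (univ.image Sum.inr) ∪ (Icc 1 g).biUnion fun s => (badSets σ s).biUnion (pick e)

theorem card_frozen (g : ℕ) :
    (frozen σ e g).card ≤ e + ∑ s ∈ Icc 1 g, (badSets σ s).card := by
  classical
  unfold frozen
  refine (card_union_le _ _).trans (Nat.add_le_add ?_ ?_)
  · exact card_image_le.trans (by simp)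
  · refine card_biUnion_le.trans (sum_le_sum fun s _ => ?_)
    refine card_biUnion_le.trans ?_
    calc ∑ S ∈ badSets σ s, (pick e S).card ≤ ∑ S ∈ badSets σ s, 1 :=
          sum_le_sum fun S _ => card_pick e S
      _ = _ := by simp

variable (Z : Finset (Fin N ⊕ Fin e))

open Classical in
/-- the rows after freezing the columns of `Z` -/
noncomputable def frI : Fin M ⊕ {z // z ∈ Z} → Finset (Fin N ⊕ Fin e)
  | Sum.inl i => univ.filter fun x => x ∉ Z ∧ ∃ y k, x = Sum.inl y ∧ (σ (y, k)).1 = i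
  | Sum.inr z => {z.1}

theorem mem_frI (i : Fin M) (x : Fin N ⊕ Fin e) :
    x ∈ frI σ e Z (Sum.inl i) ↔ x ∉ Z ∧ ∃ y k, x = Sum.inl y ∧ (σ (y, k)).1 = i := by
  simp [frI]

theorem card_frI (hw : 1 ≤ w) (r : Fin M ⊕ {z // z ∈ Z}) : (frI σ e Z r).card ≤ w := by
  classical
  rcases r with i | z
  · have hsub : frI σ e Z (Sum.inl i) ⊆
        (univ : Finset (Fin w)).image fun q => (Sum.inl (σ.symm (i, q)).1 : Fin N ⊕ Fin e) := by
      intro x hx
      rw [mem_frI] at hx
      obtain ⟨_, y, k, rfl, hk⟩ := hx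
      rw [mem_image]
      refine ⟨(σ (y, k)).2, mem_univ _, ?_⟩
      have : (i, (σ (y, k)).2) = σ (y, k) := by rw [← hk]
      rw [this]; simp
    refine (card_le_card hsub).trans (card_image_le.trans ?_)
    simp
  · simpa [frI] using hw

theorem card_rowsOf_frI (x : Fin N ⊕ Fin e) (hZ : ∀ z : Fin e, Sum.inr z ∈ Z) :
    (rowsOf (frI σ e Z) x).card ≤ 2 := by
  classical
  by_cases hx : x ∈ Z
  · have hsub : rowsOf (frI σ e Z) x ⊆ {Sum.inr ⟨x, hx⟩} := by
      intro r hr
      simp only [rowsOf, mem_filter, mem_univ, true_and] at hr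
      rcases r with i | z
      · rw [mem_frI] at hr
        exact absurd hx hr.1
      · simp only [frI, mem_singleton] at hr
        subst hr
        simp
    refine (card_le_card hsub).trans ?_
    simp
  · rcases x with y | z
    · have hsub : rowsOf (frI σ e Z) (Sum.inl y) ⊆
          (univ : Finset (Fin 2)).image fun k => Sum.inl (σ (y, k)).1 := by
        intro r hr
        simp only [rowsOf, mem_filter, mem_univ, true_and] at hr
        rcases r with i | z
        · rw [mem_frI] at hr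
          obtain ⟨_, y', k, hyy, hk⟩ := hr
          have hyy' := Sum.inl_injective hyy
          subst hyy'
          rw [mem_image]
          exact ⟨k, mem_univ _, by rw [hk]⟩
        · simp only [frI, mem_singleton] at hr
          exact absurd z.2 (by rw [← hr]; exact hx)
      refine (card_le_card hsub).trans (card_image_le.trans ?_)
      simp
    · exact absurd (hZ z) hx

/-- freezing one column of every bad set -/
theorem freeze (g : ℕ) (d : ℝ) (hd : ∀ s : ℕ, (s : ℝ) < d → s ≤ g) (hw : 1 ≤ w) :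
    TG w 2 (N + e) (M + (frozen σ e g).card) d := by
  classical
  have hZ : ∀ z : Fin e, Sum.inr z ∈ frozen σ e g := by
    intro z
    unfold frozen
    rw [mem_union]; left
    simp
  refine TG_of (frI σ e (frozen σ e g)) ?_ ?_ (card_frI σ e _ hw)
    (fun x => card_rowsOf_frI σ e _ x hZ) ?_
  · simp
  · simp
  intro S hS hSd
  by_cases hex : ∃ z ∈ S, z ∈ frozen σ e g
  · obtain ⟨z, hzS, hz⟩ := hex
    refine ⟨Sum.inr ⟨z, hz⟩, ?_⟩
    rw [show frI σ e (frozen σ e g) (Sum.inr ⟨z, hz⟩) = {z} from rfl, singleton_inter_of_mem hzS]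
    simp
  push Not at hex
  set S0 : Finset (Fin N) := univ.filter fun y => Sum.inl y ∈ S with hS0
  have hmem0 : ∀ y, y ∈ S0 ↔ Sum.inl y ∈ S := by intro y; simp [hS0]
  have hne : S0.Nonempty := by
    obtain ⟨x, hx⟩ := hS
    rcases x with y | z
    · exact ⟨y, (hmem0 y).2 hx⟩
    · exact absurd (hZ z) (hex _ hx)
  have hs2 : S0.card ≤ S.card := by
    have : S0.map ⟨Sum.inl, Sum.inl_injective⟩ ⊆ S := by
      intro x hx
      simp only [mem_map, Function.Embedding.coeFn_mk] at hx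
      obtain ⟨y, hy, rfl⟩ := hx
      exact (hmem0 y).1 hy
    calc S0.card = _ := (card_map _).symm
      _ ≤ _ := card_le_card this
  have hs3 : S0.card ∈ Icc 1 g := by
    rw [mem_Icc]
    refine ⟨hne.card_pos, hs2.trans (hd _ hSd)⟩
  have hnot : S0 ∉ badSets σ S0.card := by
    intro hb
    refine hex (Sum.inl hne.choose) ((hmem0 _).1 hne.choose_spec) ?_
    unfold frozen
    rw [mem_union]; right
    rw [mem_biUnion]
    refine ⟨_, hs3, ?_⟩
    rw [mem_biUnion]
    refine ⟨S0, hb, ?_⟩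
    rw [pick, dif_pos hne]
    simp
  have hex1 : ∃ i : Fin M, ((S0 ×ˢ univ).filter fun a => (σ a).1 = i).card = 1 := by
    by_contra hcon
    push Not at hcon
    apply hnot
    rw [badSets, mem_filter, mem_powersetCard]
    exact ⟨⟨subset_univ _, rfl⟩, hcon⟩
  obtain ⟨i, hi⟩ := hex1
  rw [card_eq_one] at hi
  obtain ⟨a, ha⟩ := hi
  refine ⟨Sum.inl i, ?_⟩
  rw [card_eq_one]
  refine ⟨Sum.inl a.1, ?_⟩
  have haa : a ∈ ((S0 ×ˢ univ).filter fun a => (σ a).1 = i) := by rw [ha]; simp
  rw [mem_filter, mem_product] at haa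
  ext x
  rw [mem_inter, mem_singleton]
  constructor
  · rintro ⟨h1, h2⟩
    rw [mem_frI] at h1
    obtain ⟨_, y, k, rfl, hk⟩ := h1
    have : (y, k) ∈ ((S0 ×ˢ univ).filter fun a => (σ a).1 = i) := by
      rw [mem_filter, mem_product]
      exact ⟨⟨(hmem0 y).2 h2, mem_univ _⟩, hk⟩
    rw [ha, mem_singleton] at this
    rw [← this]
  · rintro rfl
    have h2 := (hmem0 _).1 haa.1.1
    refine ⟨?_, h2⟩
    rw [mem_frI]
    exact ⟨hex _ h2, a.1, a.2, rfl, haa.2⟩

end freeze

theorem geom_bound (x : ℝ) (hx : 2 ≤ x) (g : ℕ) : ∑ s ∈ Icc 1 g, x ^ s ≤ x ^ (g + 1) := by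
  induction g with
  | zero => simp; linarith
  | succ g ih =>
    rw [← Finset.insert_Icc_right_eq_Icc_add_one (by omega), sum_insert (by simp)]
    have h : (0 : ℝ) ≤ x ^ (g + 1) := by positivity
    calc x ^ (g + 1) + ∑ s ∈ Icc 1 g, x ^ s ≤ x ^ (g + 1) + x ^ (g + 1) := by linarith
      _ = 2 * x ^ (g + 1) := by ring
      _ ≤ x * x ^ (g + 1) := by nlinarith
      _ = x ^ (g + 1 + 1) := by ring

/-- P8: logarithmic distance -/
theorem p8 (h5 : S_P5) (h6 : S_P6b) : S_P8 := by
  classical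
  intro w R hw hR
  have hw0 : (0 : ℝ) < w := by exact_mod_cast (by omega : 0 < w)
  have hw2 : (2 : ℝ) ≤ w := by exact_mod_cast hw
  set η : ℝ := (1 - R) - 2 / w with hη
  have hηpos : 0 < η := by
    have : ((w : ℝ) - 2) / w = 1 - 2 / w := by field_simp
    rw [this] at hR
    rw [hη]; linarith
  set L : ℝ := Real.log (41 * w) with hL
  have h41 : (2 : ℝ) ≤ 41 * w := by nlinarith
  have hL1 : 1 ≤ L := by
    rw [hL, Real.le_log_iff_exp_le (by positivity)]
    have := Real.exp_one_lt_d9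
    nlinarith
  set δ : ℝ := 1 / (4 * L) with hδ
  have hδpos : 0 < δ := by rw [hδ]; positivity
  have hδ1 : δ ≤ 1 := by
    rw [hδ, div_le_one (by positivity)]; linarith
  have hlog : ∀ᶠ x : ℝ in Filter.atTop, ‖Real.log x‖ ≤ (1 / (2 * w)) * ‖id x‖ :=
    Real.isLittleO_log_id_atTop.def (by positivity)
  have hlogN : ∀ᶠ n : ℕ in Filter.atTop, ‖Real.log (n : ℝ)‖ ≤ (1 / (2 * w)) * ‖id (n : ℝ)‖ :=
    tendsto_natCast_atTop_atTop.eventually hlog
  have hbigN : ∀ᶠ n : ℕ in Filter.atTop,
      max (max ((41 * (w : ℝ)) ^ 4) (4 / η ^ 2)) (max (2 * w / η) (2 * w)) ≤ (n : ℝ) :=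
    tendsto_natCast_atTop_atTop.eventually (Filter.eventually_ge_atTop _)
  obtain ⟨n₀, hn₀⟩ := Filter.eventually_atTop.1 (hlogN.and hbigN)
  refine ⟨δ, hδpos, n₀, fun n hn => ?_⟩
  obtain ⟨hl, hb⟩ := hn₀ n hn
  simp only [max_le_iff] at hb
  obtain ⟨⟨hb1, hb2⟩, hb3, hb4⟩ := hb
  have hnpos : (0 : ℝ) < n := by nlinarith
  have hn1 : (1 : ℝ) ≤ n := by linarith
  have hlogn : 0 ≤ Real.log (n : ℝ) := Real.log_nonneg hn1
  have hl' : Real.log (n : ℝ) ≤ n / (2 * w) := by
    rw [Real.norm_of_nonneg hlogn, id, Real.norm_of_nonneg hnpos.le] at hl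
    calc Real.log (n : ℝ) ≤ 1 / (2 * w) * n := hl
      _ = _ := by ring
  have hlog4 : 4 * L ≤ Real.log (n : ℝ) := by
    have := Real.log_le_log (by positivity) hb1
    rw [Real.log_pow] at this
    rw [hL]
    simpa using this
  set g : ℕ := ⌊δ * Real.log n⌋₊ with hg
  have hgle : (g : ℝ) ≤ δ * Real.log n := Nat.floor_le (by positivity)
  set M' : ℕ := n / w with hM'
  have hM'r : (n : ℝ) / (2 * w) ≤ M' := by
    have h1 : n < w * (M' + 1) := by
      have := Nat.lt_mul_div_succ n (show 0 < w by omega)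
      exact this
    have h2 : (n : ℝ) < w * (M' + 1) := by exact_mod_cast h1
    rw [div_le_iff₀ (by positivity)]
    nlinarith
  have hgM : g ≤ M' := by
    have : (g : ℝ) ≤ M' := by
      calc (g : ℝ) ≤ δ * Real.log n := hgle
        _ ≤ 1 * Real.log n := by gcongr
        _ ≤ n / (2 * w) := by linarith
        _ ≤ M' := hM'r
    exact_mod_cast this
  have hM'pos : 0 < M' := by
    have : (0 : ℝ) < M' := lt_of_lt_of_le (by positivity) hM'r
    exact_mod_cast this
  have hN : M' ≤ M' * w := Nat.le_mul_of_pos_right _ (by omega)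
  obtain ⟨σ, hσ⟩ := h5 (M' * w) 2 (2 * M') w g (by ring) le_rfl (by omega) (by omega)
    (by omega)
  have hsum : ∑ s ∈ Icc 1 g, ((badSets σ s).card : ℝ) ≤ Real.sqrt n := by
    calc ∑ s ∈ Icc 1 g, ((badSets σ s).card : ℝ) ≤ _ := hσ
      _ ≤ ∑ s ∈ Icc 1 g, (41 * (w : ℝ)) ^ s := by
          refine sum_le_sum fun s hs => ?_
          rw [mem_Icc] at hs
          exact h6 (M' * w) (2 * M') w s (by ring) hs.1 (by omega) (by omega) (by omega)
      _ ≤ (41 * (w : ℝ)) ^ (g + 1) := geom_bound _ h41 g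
      _ ≤ Real.sqrt n := by
          refine Real.le_sqrt_of_sq_le ?_
          rw [← pow_mul, ← Real.log_le_log_iff (by positivity) hnpos, Real.log_pow]
          push_cast
          have : (g : ℝ) * L ≤ Real.log n / 4 := by
            calc (g : ℝ) * L ≤ (δ * Real.log n) * L := by gcongr
              _ = Real.log n / 4 := by rw [hδ]; field_simp
          rw [← hL]
          nlinarith
  have hfr := freeze σ (n % w) g (δ * Real.log n) (fun s hs => Nat.le_floor hs.le) (by omega)
  have hnN : M' * w + n % w = n := Nat.div_add_mod' n w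
  rw [hnN] at hfr
  refine ⟨_, ?_, hfr⟩
  have hc : ((frozen σ (n % w) g).card : ℝ) ≤ w + Real.sqrt n := by
    have h1 := card_frozen σ (n % w) g
    have h2 : ((frozen σ (n % w) g).card : ℝ) ≤
        ((n % w : ℕ) : ℝ) + ∑ s ∈ Icc 1 g, ((badSets σ s).card : ℝ) := by exact_mod_cast h1
    have h3 : ((n % w : ℕ) : ℝ) ≤ w := by exact_mod_cast (Nat.mod_lt n (by omega)).le
    linarith
  have hM'up : (M' : ℝ) * w ≤ n := by exact_mod_cast Nat.div_mul_le_self n w
  have hM'2 : (2 * M' : ℝ) ≤ 2 / w * n := by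
    rw [div_mul_eq_mul_div, le_div_iff₀ hw0]; linarith
  have hs1 : Real.sqrt n ≤ η / 2 * n := by
    rw [Real.sqrt_le_left (by positivity)]
    have : 4 ≤ n * η ^ 2 := by
      rw [div_le_iff₀ (by positivity)] at hb2; exact hb2
    nlinarith
  have hs2 : (w : ℝ) ≤ η / 2 * n := by
    rw [div_le_iff₀ hηpos] at hb3
    linarith
  push_cast
  calc (2 * M' : ℝ) + (frozen σ (n % w) g).card ≤ 2 / w * n + (η / 2 * n + η / 2 * n) := by
        linarith
    _ = (1 - R) * n := by rw [hη]; ring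

end Pool.Agent.Helper10.LD
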